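import Mathlib
import Pool.Agent.H523R3.TransMain
import Pool.Agent.W5h28.TransMono

set_option autoImplicit false

/-!
# MP_ff81d5_co, Q2: the asymptotic transversal ratios increase weakly with the dimension

The definitions of `tauP`, `tauS` and of all notions they use are in `Pool.Agent.H523R3.TransDefs`.
-/

namespace Pool.Agent.Results.MP_ff81d5_co.Monotone

open Pool.Agent.H523R3.Trans Pool.Agent.W5h28.TR

/-- Both sequences `(τ^P_d)_{d ≥ 2}` and `(τ^S_d)_{d ≥ 2}` are weakly increasing. -/
theorem result : MonotoneOn tauP (Set.Ici 2) ∧ MonotoneOn tauS (Set.Ici 2) := by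
  refine ⟨fun d hd e _ hde => ?_, fun d hd e _ hde => ?_⟩
  · exact mono_aux tauP tauP_two_le le_tauP_three (tauP_le_one (by norm_num))
      (fun d hd => tauP_eq_one hd) d e hd hde
  · exact mono_aux tauS tauS_two_le le_tauS_three (tauS_le_one 3)
      (fun d hd => tauS_eq_one hd) d e hd hde

end Pool.Agent.Results.MP_ff81d5_co.Monotone
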